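import Mathlib
import Pool.Agent.Lib.MP_229e70_co.Defs
import Pool.Agent.Lib.MP_229e70_co.Indep
import Pool.Agent.Lib.MP_229e70_co.Cycle
import Pool.Agent.Lib.MP_229e70_co.Polygon

/-!
For odd `n ≥ 17` the cycle `C_n` has a configuration (the regular `n`-gon) whose amplitude has
absolute value less than `1`, and even less than `26 / n`.
-/

set_option autoImplicit false

namespace Pool.Agent.Results.MP_229e70_co.OddCycles

open Pool.Agent.Lib.MP229e70 SimpleGraph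

lemma exp_neg_ge (x : ℝ) (h : x ≤ 10) : (1 - x / 10) ^ 10 ≤ Real.exp (-x) := by
  have h1 : 1 - x / 10 ≤ Real.exp (-(x / 10)) := Real.one_sub_le_exp_neg _
  have h2 : 0 ≤ 1 - x / 10 := by linarith
  calc (1 - x / 10) ^ 10 ≤ (Real.exp (-(x / 10))) ^ 10 := pow_le_pow_left₀ h2 h1 10
    _ = Real.exp (-x) := by rw [← Real.exp_nat_mul]; congr 1; push_cast; ring

/-- Real-variable estimate for the value of the amplitude. -/
lemma real_bound (n : ℕ) (hn : 17 ≤ n) (u : ℝ) (hu0 : 0 ≤ u) (hu : u ≤ (Real.pi / n) ^ 2)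
    (r : ℝ) (hr0 : 0 ≤ r) (hr : r ^ 2 = u ^ 2 + 1 - u) :
    |(r + u) ^ n - (r - u) ^ n| < 1 ∧ |(r + u) ^ n - (r - u) ^ n| < 26 / n := by
  have hN : (17 : ℝ) ≤ (n : ℝ) := by exact_mod_cast hn
  have hNpos : (0 : ℝ) < n := by linarith
  have hpi := Real.pi_lt_d4
  have hpi0 := Real.pi_pos
  have hpi2 : Real.pi ^ 2 < 9.8697 := by nlinarith
  obtain ⟨q, hq⟩ : ∃ q : ℝ, q = Real.pi ^ 2 / n := ⟨_, rfl⟩
  have hq0 : 0 < q := by rw [hq]; positivity
  have hqn : q * n = Real.pi ^ 2 := by rw [hq]; field_simp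
  have hq1 : q ≤ 0.58058 := by
    rw [hq, div_le_iff₀ hNpos]
    linarith
  have hq2 : q < 9.8697 / n := by
    rw [hq]; exact div_lt_div_of_pos_right hpi2 hNpos
  have hnu : n * u ≤ q := by
    have h1 : n * u ≤ n * (Real.pi / n) ^ 2 := mul_le_mul_of_nonneg_left hu hNpos.le
    have h2 : n * (Real.pi / n) ^ 2 = q := by rw [hq]; field_simp
    linarith
  have hu1 : u ≤ 0.034152 := by
    have h1 : 17 * u ≤ n * u := mul_le_mul_of_nonneg_right hN hu0
    linarith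
  have hnu0 : 0 ≤ n * u := mul_nonneg hNpos.le hu0
  have hru : r ≤ 1 - u / 2 + u ^ 2 / 2 := by
    have h1 : 0 ≤ 1 - u / 2 + u ^ 2 / 2 := by nlinarith
    apply (pow_le_pow_iff_left₀ hr0 h1 two_ne_zero).1
    rw [hr]
    nlinarith [sq_nonneg (u * (1 - u))]
  have hrl : 1 - u / 2 ≤ r := by
    apply (pow_le_pow_iff_left₀ (by linarith) hr0 two_ne_zero).1
    rw [hr]
    nlinarith [sq_nonneg u]
  -- upper bound for the first power
  obtain ⟨a, ha⟩ : ∃ a : ℝ, a = n * (u / 2 + u ^ 2 / 2) := ⟨_, rfl⟩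
  have ha1 : (r + u) ^ n ≤ Real.exp a := by
    have h1 : r + u ≤ Real.exp (u / 2 + u ^ 2 / 2) := by
      have := Real.add_one_le_exp (u / 2 + u ^ 2 / 2)
      linarith
    calc (r + u) ^ n ≤ (Real.exp (u / 2 + u ^ 2 / 2)) ^ n :=
          pow_le_pow_left₀ (by linarith) h1 n
      _ = Real.exp a := by rw [← Real.exp_nat_mul, ha]
  have ha0 : 0 ≤ a := by rw [ha]; positivity
  have ha2 : a ≤ 0.517077 * q := by
    rw [ha]
    have h1 : n * (u / 2 + u ^ 2 / 2) = (n * u) * ((1 + u) / 2) := by ring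
    rw [h1]
    calc (n * u) * ((1 + u) / 2) ≤ (n * u) * 0.517077 :=
          mul_le_mul_of_nonneg_left (by linarith) hnu0
      _ ≤ 0.517077 * q := by linarith
  -- lower bound for the second power
  obtain ⟨t, ht⟩ : ∃ t : ℝ, t = 3 * u / 2 := ⟨_, rfl⟩
  have ht0 : 0 ≤ t := by rw [ht]; linarith
  have ht1 : t ≤ 0.051228 := by rw [ht]; linarith
  have ht2 : 0 < 1 - t := by linarith
  have hexp : Real.exp (-(t / (1 - t))) ≤ 1 - t := by
    have h1 := Real.add_one_le_exp (t / (1 - t))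
    have h2 : t / (1 - t) + 1 = (1 - t)⁻¹ := by field_simp; ring
    rw [h2] at h1
    rw [Real.exp_neg]
    exact inv_le_of_inv_le₀ ht2 h1
  obtain ⟨b, hb⟩ : ∃ b : ℝ, b = n * (t / (1 - t)) := ⟨_, rfl⟩
  have hb1 : Real.exp (-b) ≤ (r - u) ^ n := by
    calc Real.exp (-b) = (Real.exp (-(t / (1 - t)))) ^ n := by
          rw [← Real.exp_nat_mul, hb]; congr 1; ring
      _ ≤ (1 - t) ^ n := pow_le_pow_left₀ (Real.exp_pos _).le hexp n
      _ ≤ (r - u) ^ n := by
          apply pow_le_pow_left₀ ht2.le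
          rw [ht]; linarith
  have hb2 : b ≤ 1.582 * q := by
    rw [hb, ht]
    have h1 : (n : ℝ) * (3 * u / 2 / (1 - 3 * u / 2)) = (n * u) * (3 / 2 / (1 - 3 * u / 2)) := by
      ring
    rw [h1]
    have h2 : 3 / 2 / (1 - 3 * u / 2) ≤ 1.582 := by
      rw [div_le_iff₀ (by linarith)]
      linarith
    calc (n * u) * (3 / 2 / (1 - 3 * u / 2)) ≤ (n * u) * 1.582 :=
          mul_le_mul_of_nonneg_left h2 hnu0
      _ ≤ 1.582 * q := by linarith
  have hb0 : 0 ≤ b := by rw [hb]; positivity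
  -- nonnegativity
  have hE0 : 0 ≤ (r + u) ^ n - (r - u) ^ n := by
    have : (r - u) ^ n ≤ (r + u) ^ n := pow_le_pow_left₀ (by linarith) (by linarith) n
    linarith
  rw [abs_of_nonneg hE0]
  have hE : (r + u) ^ n - (r - u) ^ n ≤ Real.exp a - Real.exp (-b) := by linarith
  constructor
  · have h1 : Real.exp a ≤ 1 / (1 - 0.3003 / 10) ^ 10 := by
      have h2 := exp_neg_ge 0.3003 (by norm_num)
      have h3 : Real.exp a ≤ Real.exp 0.3003 := Real.exp_le_exp.2 (by linarith)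
      have h4 : Real.exp 0.3003 = 1 / Real.exp (-0.3003) := by
        rw [Real.exp_neg, one_div, inv_inv]
      rw [h4] at h3
      refine le_trans h3 ?_
      exact one_div_le_one_div_of_le (by norm_num) h2
    have h5 : (1 - 0.919 / 10) ^ 10 ≤ Real.exp (-b) := by
      have h2 := exp_neg_ge 0.919 (by norm_num)
      exact le_trans h2 (Real.exp_le_exp.2 (by linarith))
    have h6 : (1 : ℝ) / (1 - 0.3003 / 10) ^ 10 - (1 - 0.919 / 10) ^ 10 < 1 := by norm_num
    linarith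
  · have h1 : Real.exp a ≤ 1 + 2 * a := by
      have ha3 : a ≤ 0.31 := by linarith
      have h2 : 1 - a ≤ Real.exp (-a) := Real.one_sub_le_exp_neg _
      have h3 : Real.exp a * Real.exp (-a) = 1 := by rw [← Real.exp_add]; simp
      have h4 : 0 < Real.exp a := Real.exp_pos _
      have h5 : Real.exp a * (1 - a) ≤ 1 := by
        exact le_trans (mul_le_mul_of_nonneg_left h2 h4.le) (le_of_eq h3)
      have h6 : 1 ≤ (1 + 2 * a) * (1 - a) := by nlinarith
      have h7 : 0 < 1 - a := by linarith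
      exact le_of_mul_le_mul_right (le_trans h5 h6) h7
    have h2 : 1 - b ≤ Real.exp (-b) := Real.one_sub_le_exp_neg _
    have h3 : 2 * a + b ≤ 2.6162 * q := by linarith
    have h4 : 2.6162 * q < 26 / n := by
      have h5 : 2.6162 * q < 2.6162 * (9.8697 / n) := by linarith
      have h6 : 2.6162 * (9.8697 / (n : ℝ)) ≤ 26 / n := by
        rw [← mul_div_assoc]
        exact div_le_div_of_nonneg_right (by norm_num) hNpos.le
      linarith
    linarith

/-- For every odd `n ≥ 17` there is an admissible configuration of the cycle `C_n` whose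
amplitude has absolute value `< 1`, and `< 26 / n`. -/
theorem result (n : ℕ) (hn : 17 ≤ n) (hodd : Odd n) :
    ∃ x : Fin n → E3, Admissible (cycleGraph n) x ∧
      (∃ ψ, IsSpinorChoice (cycleGraph n) x ψ) ∧ (∃ Δ, IsOrientation (cycleGraph n) Δ) ∧
      ∀ ψ Δ, IsSpinorChoice (cycleGraph n) x ψ → IsOrientation (cycleGraph n) Δ →
        ‖amplitude (cycleGraph n) ψ Δ‖ < 1 ∧ ‖amplitude (cycleGraph n) ψ Δ‖ < 26 / n := by
  obtain ⟨m, rfl⟩ : ∃ m, n = m + 3 := ⟨n - 3, by omega⟩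
  refine ⟨poly, poly_admissible, ⟨psi, psi_choice⟩, ⟨fwdSet, isOrientation_fwdSet⟩, ?_⟩
  intro ψ Δ hψ hΔ
  rw [amplitude_indep (cycleGraph (m + 3)) psi_choice hψ isOrientation_fwdSet hΔ,
    amplitude_poly]
  -- the angle
  obtain ⟨θ, hθ⟩ : ∃ θ : ℝ, θ = Real.pi / ((m + 3 : ℕ) : ℝ) := ⟨_, rfl⟩
  have hzeta : zeta m + (zeta m)⁻¹ = ((2 * Real.cos (2 * θ) : ℝ) : ℂ) := by
    unfold zeta
    rw [← Complex.exp_neg]
    push_cast
    rw [Complex.two_cos]
    congr 1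
    · congr 1; rw [hθ]; push_cast; ring
    · congr 1; rw [hθ]; push_cast; ring
  obtain ⟨u, hu⟩ : ∃ u : ℝ, u = Real.sin θ ^ 2 := ⟨_, rfl⟩
  have hcos : Real.cos (2 * θ) = 1 - 2 * u := by
    rw [hu, Real.cos_two_mul, Real.sin_sq]; ring
  have hu0 : 0 ≤ u := by rw [hu]; positivity
  have hN : (0 : ℝ) < ((m + 3 : ℕ) : ℝ) := by positivity
  have hθ0 : 0 ≤ θ := by rw [hθ]; positivity
  have hu1 : u ≤ (Real.pi / ((m + 3 : ℕ) : ℝ)) ^ 2 := by
    rw [hu, ← hθ]
    have h1 : |Real.sin θ| ≤ |θ| := Real.abs_sin_le_abs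
    exact sq_le_sq.2 h1
  have hrad : 0 ≤ u ^ 2 + 1 - u := by nlinarith [sq_nonneg (u - 1 / 2)]
  obtain ⟨r, hr⟩ : ∃ r : ℝ, r = Real.sqrt (u ^ 2 + 1 - u) := ⟨_, rfl⟩
  have hr0 : 0 ≤ r := by rw [hr]; exact Real.sqrt_nonneg _
  have hr2 : r ^ 2 = u ^ 2 + 1 - u := by rw [hr]; exact Real.sq_sqrt hrad
  have hr2' : (r : ℂ) ^ 2 = (u : ℂ) ^ 2 + 1 - u := by exact_mod_cast congrArg (fun t : ℝ => (t : ℂ)) hr2
  have htr := trace_TM m ((u : ℂ) + r) ((u : ℂ) - r)
    (by rw [hzeta, hcos]; push_cast; ring)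
    (by rw [hzeta, hcos]; push_cast; linear_combination (-1 : ℂ) * hr2') (m + 3)
  have hval : Matrix.trace (TM m ^ (m + 3)) =
      (((r + u) ^ (m + 3) - (r - u) ^ (m + 3) : ℝ) : ℂ) := by
    rw [htr]
    have h1 : ((u : ℂ) - r) ^ (m + 3) = - ((r : ℂ) - u) ^ (m + 3) := by
      rw [← hodd.neg_pow]; congr 1; ring
    rw [h1]
    push_cast
    ring
  rw [hval, Complex.norm_real, Real.norm_eq_abs]
  exact real_bound (m + 3) hn u hu0 hu1 r hr0 hr2

end Pool.Agent.Results.MP_229e70_co.OddCycles
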